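import Pool.Agent.MWV.Stmts

/-!
# MWV, row RH2 (MP_23468a_al): the identity match is impossible if the inner gaps contain `y`
-/

set_option autoImplicit false

namespace Pool.Agent.MWV.H62

open Pool.Agent.Helper14_MV Pool.Agent.Helper2_MV Pool.Agent.MWV

/-! ### lists -/

theorem uniq {z : ℕ} : ∀ {A1 A2 B1 B2 : List ℕ}, A1 ++ z :: A2 = B1 ++ z :: B2 → z ∉ A1 → z ∉ B1 →
    A1 = B1 ∧ A2 = B2
  | [], A2, [], B2, h, _, _ => by simpa using h
  | [], A2, b :: B1, B2, h, _, hb => by
    simp only [List.nil_append, List.cons_append, List.cons.injEq] at h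
    exact absurd (by rw [h.1]; exact List.mem_cons_self) hb
  | a :: A1, A2, [], B2, h, ha, _ => by
    simp only [List.nil_append, List.cons_append, List.cons.injEq] at h
    exact absurd (by rw [← h.1]; exact List.mem_cons_self) ha
  | a :: A1, A2, b :: B1, B2, h, ha, hb => by
    simp only [List.cons_append, List.cons.injEq] at h
    obtain ⟨h1, h2⟩ := uniq h.2 (fun h' => ha (List.mem_cons_of_mem _ h'))
      (fun h' => hb (List.mem_cons_of_mem _ h'))
    exact ⟨by rw [h.1, h1], h2⟩

theorem im_append (N : ℕ) (f : ℕ → List ℕ) (A B : List ℕ) :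
    im N f (A ++ B) = im N f A ++ im N f B := by
  unfold im
  rw [List.flatMap_append]

theorem im_cons (N : ℕ) (f : ℕ → List ℕ) (a : ℕ) (ha : a % 3 ≠ 0) (B : List ℕ) :
    im N f (a :: B) = f a ++ im N f B := by
  unfold im
  rw [List.flatMap_cons, if_neg ha]

theorem mem_im {N : ℕ} {f : ℕ → List ℕ} {L : List ℕ} {a c : ℕ} (ha : a ∈ L) (hc : c ∈ f a) :
    c ∈ im N f L := by
  unfold im
  rw [List.mem_flatMap]
  refine ⟨a, ha, ?_⟩
  by_cases h : a % 3 = 0
  · rw [if_pos h, List.mem_flatten]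
    exact ⟨f a, List.mem_replicate.2 ⟨by omega, rfl⟩, hc⟩
  · rw [if_neg h]
    exact hc

theorem mem_im_X {N : ℕ} {f : ℕ → List ℕ} {a c : ℕ} (h : c ∈ im N f (X N a)) : c ∈ f a := by
  unfold im at h
  rw [List.mem_flatMap] at h
  obtain ⟨b, hb, hc⟩ := h
  rw [List.eq_of_mem_replicate hb] at hc
  split_ifs at hc with h'
  · rw [List.mem_flatten] at hc
    obtain ⟨l, hl, hc⟩ := hc
    rw [List.eq_of_mem_replicate hl] at hc
    exact hc
  · exact hc

theorem pl_append (A B : List ℕ) : pl (A ++ B) = pl A ++ pl B := by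
  unfold pl
  rw [List.flatMap_append]

theorem pl_cons (e : ℕ) (B : List ℕ) : pl (e :: B) = (3 * e + 8) :: (3 * e + 1) :: pl B := rfl

theorem pr_append (A B : List ℕ) : pr (A ++ B) = pr A ++ pr B := by
  unfold pr
  rw [List.flatMap_append]

theorem pr_cons (e : ℕ) (B : List ℕ) : pr (e :: B) = (3 * e + 1) :: (3 * e + 8) :: pr B := rfl

theorem pl_not_heavy (A : List ℕ) : ∀ a ∈ pl A, a % 3 ≠ 0 := by
  intro a ha
  unfold pl at ha
  rw [List.mem_flatMap] at ha
  obtain ⟨e, _, h⟩ := ha
  simp only [List.mem_cons, List.not_mem_nil, or_false] at h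
  omega

theorem pr_not_heavy (A : List ℕ) : ∀ a ∈ pr A, a % 3 ≠ 0 := by
  intro a ha
  unfold pr at ha
  rw [List.mem_flatMap] at ha
  obtain ⟨e, _, h⟩ := ha
  simp only [List.mem_cons, List.not_mem_nil, or_false] at h
  omega

theorem pl_count (i : ℕ) : ∀ A : List ℕ, (pl A).count (3 * i + 1) = A.count i
  | [] => rfl
  | e :: A => by
    rw [pl_cons, List.count_cons, List.count_cons, pl_count i A, List.count_cons]
    have h1 : ((3 * e + 8 : ℕ) == 3 * i + 1) = false := by
      rw [beq_eq_false_iff_ne]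
      omega
    have h2 : ((3 * e + 1 : ℕ) == 3 * i + 1) = (e == i) := by
      rw [Bool.eq_iff_iff, beq_iff_eq, beq_iff_eq]
      omega
    rw [h1, h2]
    simp

theorem pr_count (i : ℕ) : ∀ A : List ℕ, (pr A).count (3 * i + 1) = A.count i
  | [] => rfl
  | e :: A => by
    rw [pr_cons, List.count_cons, List.count_cons, pr_count i A, List.count_cons]
    have h1 : ((3 * e + 8 : ℕ) == 3 * i + 1) = false := by
      rw [beq_eq_false_iff_ne]
      omega
    have h2 : ((3 * e + 1 : ℕ) == 3 * i + 1) = (e == i) := by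
      rw [Bool.eq_iff_iff, beq_iff_eq, beq_iff_eq]
      omega
    rw [h1, h2]
    simp

theorem cnt3 (A B C : List ℕ) (z : ℕ) : (A ++ z :: (B ++ z :: C)).count z =
    A.count z + B.count z + C.count z + 2 := by
  rw [List.count_append, List.count_cons_self, List.count_append, List.count_cons_self]
  omega

/-- the position of a light whose image is itself with letters `3` around -/
theorem pos (N : ℕ) (f : ℕ → List ℕ) (P' Q' p q Lq L1 c1 c2 : List ℕ) (i a b : ℕ)
    (hn : (P' ++ Q').Nodup) (hi : i ∈ P' ++ Q') (hok : Ok P' Q' L1)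
    (hV : p ++ (im N f (W P' Q' Lq) ++ q) = W P' Q' L1) (hL : Lq = c1 ++ (3 * i + 1) :: c2)
    (hf : f (3 * i + 1) = X a 3 ++ (3 * i + 1) :: X b 3) :
    f (3 * i + 1) = [3 * i + 1] ∧ ∃ l1 l2, L1 = l1 ++ (3 * i + 1) :: l2 ∧
      p ++ (im N f (pl P') ++ (f 2 ++ im N f c1)) = pl P' ++ 2 :: l1 := by
  have hz : (3 * i + 1) % 3 ≠ 0 := by omega
  have h2 : (2 : ℕ) % 3 ≠ 0 := by decide
  have h5 : (5 : ℕ) % 3 ≠ 0 := by decide
  have h8 : (3 * i + 8) % 3 ≠ 0 := by omega
  have hc1 : L1.count (3 * i + 1) = 1 := hok.one i hi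
  obtain ⟨l1, l2, hL1, hl1⟩ := List.eq_append_cons_of_mem
    (List.count_pos_iff.1 (by omega : 0 < L1.count (3 * i + 1)))
  have hl2 : (3 * i + 1) ∉ l2 := by
    intro h
    have := List.count_pos_iff.2 h
    rw [hL1, List.count_append, List.count_cons_self] at hc1
    omega
  have hcb : ∀ A : List ℕ, ((3 * i + 1) ∉ A ↔ A.count (3 * i + 1) = 0) := fun A => by
    rw [List.count_eq_zero]
  have hn' := List.nodup_append.1 hn
  have e2 : (2 : ℕ) ≠ 3 * i + 1 := by omega
  have e5 : (5 : ℕ) ≠ 3 * i + 1 := by omega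
  have e8 : (3 * i + 8 : ℕ) ≠ 3 * i + 1 := by omega
  have e3 : (3 : ℕ) ≠ 3 * i + 1 := by omega
  have cX : ∀ n : ℕ, (X n 3).count (3 * i + 1) = 0 := by
    intro n
    rw [List.count_eq_zero]
    intro h
    exact e3 (List.eq_of_mem_replicate h).symm
  rcases List.mem_append.1 hi with hP | hQ
  · -- the place is on the left
    obtain ⟨P1, P2, hPP, hP1⟩ := List.eq_append_cons_of_mem hP
    have hcP : P'.count i = 1 := List.count_eq_one_of_mem hn'.1 hP
    have hcQ : Q'.count i = 0 := by
      rw [List.count_eq_zero]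
      intro h
      exact hn'.2.2 i hP i h rfl
    have hP2 : P2.count i = 0 := by
      rw [hPP, List.count_append, List.count_cons_self] at hcP
      omega
    have hP1' : P1.count i = 0 := List.count_eq_zero.2 hP1
    have eI : p ++ (im N f (W P' Q' Lq) ++ q) =
        (p ++ (im N f (pl P1) ++ (f (3 * i + 8) ++ X a 3))) ++ (3 * i + 1) ::
          ((X b 3 ++ (im N f (pl P2) ++ (f 2 ++ (im N f c1 ++ X a 3)))) ++ (3 * i + 1) ::
            (X b 3 ++ (im N f c2 ++ (f 5 ++ (im N f (pr Q') ++ q))))) := by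
      unfold W
      rw [hPP, pl_append, pl_cons, hL, im_append, im_append, im_cons N f _ h8, im_cons N f _ hz,
        im_cons N f _ h2, im_append, im_append, im_cons N f _ hz, im_cons N f _ h5, hf]
      simp only [List.append_assoc, List.cons_append]
    have eW : W P' Q' L1 = (pl P1 ++ [3 * i + 8]) ++ (3 * i + 1) ::
        ((pl P2 ++ 2 :: l1) ++ (3 * i + 1) :: (l2 ++ 5 :: pr Q')) := by
      unfold W
      rw [hL1, hPP, pl_append, pl_cons]
      simp only [List.append_assoc, List.cons_append, List.nil_append]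
    have n1 : (3 * i + 1) ∉ pl P1 ++ [3 * i + 8] := by
      rw [hcb, List.count_append, pl_count, hP1', List.count_cons_of_ne e8, List.count_nil]
    have n2 : (3 * i + 1) ∉ pl P2 ++ 2 :: l1 := by
      rw [hcb, List.count_append, pl_count, hP2, List.count_cons_of_ne e2,
        List.count_eq_zero.2 hl1]
    have n3 : (3 * i + 1) ∉ l2 ++ 5 :: pr Q' := by
      rw [hcb, List.count_append, List.count_cons_of_ne e5, pr_count, hcQ,
        List.count_eq_zero.2 hl2]
    have hE := hV
    rw [eI, eW] at hE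
    have hcnt := congrArg (List.count (3 * i + 1)) hE
    rw [cnt3, cnt3, List.count_eq_zero.2 n1, List.count_eq_zero.2 n2,
      List.count_eq_zero.2 n3] at hcnt
    obtain ⟨u1, u2⟩ := uniq hE ((hcb _).2 (by omega)) n1
    obtain ⟨u3, u4⟩ := uniq u2 ((hcb _).2 (by omega)) n2
    have ha : a = 0 := by
      by_contra hne
      have h3 : (3 : ℕ) ∈ pl P1 ++ [3 * i + 8] := by
        rw [← u1]
        simp [hne]
      rcases List.mem_append.1 h3 with h | h
      · exact pl_not_heavy _ _ h rfl
      · simp only [List.mem_cons, List.not_mem_nil, or_false] at h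
        omega
    have hb : b = 0 := by
      by_contra hne
      obtain ⟨b', rfl⟩ : ∃ b', b = b' + 1 := ⟨b - 1, by omega⟩
      have h3 := congrArg (fun l => l.head?) u3
      simp only [X, List.replicate_succ, List.cons_append, List.head?_cons] at h3
      match P2, h3 with
      | [], h3 => simp [pl] at h3
      | e :: P2, h3 =>
        rw [pl_cons] at h3
        simp only [List.cons_append, List.head?_cons, Option.some.injEq] at h3
        omega
    subst ha
    subst hb
    refine ⟨by rw [hf]; rfl, l1, l2, hL1, ?_⟩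
    have u3' : im N f (pl P2) ++ (f 2 ++ im N f c1) = pl P2 ++ 2 :: l1 := by
      have h := u3
      simp only [X, List.replicate_zero, List.nil_append, List.append_nil] at h
      exact h
    have u1' : p ++ (im N f (pl P1) ++ f (3 * i + 8)) = pl P1 ++ [3 * i + 8] := by
      have h := u1
      simp only [X, List.replicate_zero, List.append_nil] at h
      exact h
    have hf' : f (3 * i + 1) = [3 * i + 1] := by rw [hf]; rfl
    have e : p ++ (im N f (pl P') ++ (f 2 ++ im N f c1)) =
        (p ++ (im N f (pl P1) ++ f (3 * i + 8))) ++ ([3 * i + 1] ++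
          (im N f (pl P2) ++ (f 2 ++ im N f c1))) := by
      rw [hPP, pl_append, pl_cons, im_append, im_cons N f _ h8, im_cons N f _ hz, hf']
      simp only [List.append_assoc, List.cons_append, List.nil_append]
    rw [e, u1', u3', hPP, pl_append, pl_cons]
    simp only [List.append_assoc, List.cons_append, List.nil_append]
  · -- the place is on the right
    obtain ⟨Q1, Q2, hQQ, hQ1⟩ := List.eq_append_cons_of_mem hQ
    have hcQ : Q'.count i = 1 := List.count_eq_one_of_mem hn'.2.1 hQ
    have hcP : P'.count i = 0 := by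
      rw [List.count_eq_zero]
      intro h
      exact hn'.2.2 i h i hQ rfl
    have hQ2 : Q2.count i = 0 := by
      rw [hQQ, List.count_append, List.count_cons_self] at hcQ
      omega
    have hQ1' : Q1.count i = 0 := List.count_eq_zero.2 hQ1
    have eI : p ++ (im N f (W P' Q' Lq) ++ q) =
        (p ++ (im N f (pl P') ++ (f 2 ++ (im N f c1 ++ X a 3)))) ++ (3 * i + 1) ::
          ((X b 3 ++ (im N f c2 ++ (f 5 ++ (im N f (pr Q1) ++ X a 3)))) ++ (3 * i + 1) ::
            (X b 3 ++ (f (3 * i + 8) ++ (im N f (pr Q2) ++ q)))) := by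
      unfold W
      rw [hQQ, pr_append, pr_cons, hL, im_append, im_cons N f _ h2, im_append, im_append,
        im_cons N f _ hz, im_cons N f _ h5, im_append, im_cons N f _ hz, im_cons N f _ h8, hf]
      simp only [List.append_assoc, List.cons_append]
    have eW : W P' Q' L1 = (pl P' ++ 2 :: l1) ++ (3 * i + 1) ::
        ((l2 ++ 5 :: pr Q1) ++ (3 * i + 1) :: ((3 * i + 8) :: pr Q2)) := by
      unfold W
      rw [hL1, hQQ, pr_append, pr_cons]
      simp only [List.append_assoc, List.cons_append]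
    have n1 : (3 * i + 1) ∉ pl P' ++ 2 :: l1 := by
      rw [hcb, List.count_append, pl_count, hcP, List.count_cons_of_ne e2,
        List.count_eq_zero.2 hl1]
    have n2 : (3 * i + 1) ∉ l2 ++ 5 :: pr Q1 := by
      rw [hcb, List.count_append, List.count_cons_of_ne e5, pr_count, hQ1',
        List.count_eq_zero.2 hl2]
    have n3 : (3 * i + 1) ∉ (3 * i + 8) :: pr Q2 := by
      rw [hcb, List.count_cons_of_ne e8, pr_count, hQ2]
    have hE := hV
    rw [eI, eW] at hE
    have hcnt := congrArg (List.count (3 * i + 1)) hE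
    rw [cnt3, cnt3, List.count_eq_zero.2 n1, List.count_eq_zero.2 n2,
      List.count_eq_zero.2 n3] at hcnt
    obtain ⟨u1, u2⟩ := uniq hE ((hcb _).2 (by omega)) n1
    obtain ⟨u3, u4⟩ := uniq u2 ((hcb _).2 (by omega)) n2
    have hb : b = 0 := by
      by_contra hne
      obtain ⟨b', rfl⟩ : ∃ b', b = b' + 1 := ⟨b - 1, by omega⟩
      have h3 := congrArg (fun l => l.head?) u4
      simp only [X, List.replicate_succ, List.cons_append, List.head?_cons,
        Option.some.injEq] at h3
      omega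
    have ha : a = 0 := by
      by_contra hne
      obtain ⟨a', rfl⟩ : ∃ a', a = a' + 1 := ⟨a - 1, by omega⟩
      have h3 := congrArg (fun l => l.getLast?) u3
      have h4 : (X b 3 ++ (im N f c2 ++ (f 5 ++ (im N f (pr Q1) ++ X (a' + 1) 3)))).getLast? =
          some 3 := by
        have h5 : X b 3 ++ (im N f c2 ++ (f 5 ++ (im N f (pr Q1) ++ X (a' + 1) 3))) =
            (X b 3 ++ (im N f c2 ++ (f 5 ++ (im N f (pr Q1) ++ X a' 3)))) ++ [3] := by
          simp only [X, List.replicate_succ', List.append_assoc]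
        rw [h5, List.getLast?_concat]
      have h6 : ∀ c, (l2 ++ 5 :: pr Q1).getLast? = some c → c % 3 ≠ 0 := by
        intro c hc
        rw [List.getLast?_append_of_ne_nil _ (List.cons_ne_nil _ _)] at hc
        have h7 := List.mem_of_getLast? hc
        rcases List.mem_cons.1 h7 with h8 | h8
        · rw [h8]
          exact h5
        · exact pr_not_heavy _ _ h8
      exact h6 3 (by rw [← u3, h4]) rfl
    subst ha
    subst hb
    refine ⟨by rw [hf]; rfl, l1, l2, hL1, ?_⟩
    have h := u1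
    simp only [X, List.replicate_zero, List.append_nil] at h
    exact h

theorem cr_head (g : ℕ → Bool) (s : List ℕ) : ∀ k, ∃ t, cr g s 1 k = 4 :: t
  | 0 => ⟨[], rfl⟩
  | k + 1 => by
    obtain ⟨t, ht⟩ := cr_head g s k
    refine ⟨t ++ (mk g (k + 1) ++ (s ++ [3 * (1 + (k + 1)) + 1])), ?_⟩
    rw [cr, ht]
    rfl

/-- row RH2 -/
theorem rh2 (hppm : PpmStmt) (hdcb : DcbStmt) (hnob : NobStmt) (hord : OrdStmt)
    (hyin : YinStmt) : Rh2Stmt := by
  intro N S P Q g k f p q s hH hs h3s hf0 hf1 hfk hS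
  obtain ⟨hperm, _, _, _⟩ := hppm k P Q hH.kp hH.pm
  obtain ⟨L1, hV, hok, hmem⟩ := hdcb N S P Q g k 1 _ hH (by omega) hS
  have hnd : (PP k P ++ PP k Q).Nodup := hperm.nodup_iff.2 List.nodup_range
  have hin : ∀ i, i ≤ k + 2 → i ∈ PP k P ++ PP k Q := by
    intro i hi
    rw [hperm.mem_iff, List.mem_range]
    omega
  have hS1 : S (Wb N P Q g k 1) (W (PP k P) (PP k Q) L1) := by
    rw [← hV]
    exact hS
  have hkp := hH.kp
  -- the run
  obtain ⟨c', hc', h3c⟩ : ∃ c', cr g s 1 k = 4 :: (c' ++ [3 * (k + 1) + 1]) ∧ 3 ∈ c' := by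
    obtain ⟨k', rfl⟩ : ∃ k', k = k' + 1 := ⟨k - 1, by omega⟩
    obtain ⟨t, ht⟩ := cr_head g s k'
    refine ⟨t ++ (mk g (k' + 1) ++ s), ?_, ?_⟩
    · rw [cr, ht, show 1 + (k' + 1) = k' + 1 + 1 by omega]
      simp only [List.append_assoc, List.cons_append]
    · simp [h3s]
  obtain ⟨a0, b0, hf0⟩ := hf0
  obtain ⟨a1, b1, hf1⟩ := hf1
  obtain ⟨a2, b2, hf2⟩ := hfk
  have hL0 : Lp N g s k = X N 0 ++ (3 * 0 + 1) :: (X N 3 ++ (cr g s 1 k ++ (X N 0 ++
      (3 * (k + 2) + 1) :: X N 3))) := rfl
  have hL1 : Lp N g s k = (X N 0 ++ 1 :: X N 3) ++ (3 * 1 + 1) :: ((c' ++ [3 * (k + 1) + 1]) ++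
      (X N 0 ++ (3 * (k + 2) + 1) :: X N 3)) := by
    unfold Lp
    rw [hc']
    simp only [List.append_assoc, List.cons_append]
  have hL2 : Lp N g s k = (X N 0 ++ 1 :: (X N 3 ++ 4 :: c')) ++ (3 * (k + 1) + 1) ::
      (X N 0 ++ (3 * (k + 2) + 1) :: X N 3) := by
    unfold Lp
    rw [hc']
    simp only [List.append_assoc, List.cons_append, List.nil_append]
  obtain ⟨g0, l1, l2, hA, hA'⟩ := pos N f _ _ p q _ L1 _ _ 0 a0 b0 hnd (hin 0 (by omega)) hok hV
    hL0 hf0
  obtain ⟨g1, l1', l2', hB, hB'⟩ := pos N f _ _ p q _ L1 _ _ 1 a1 b1 hnd (hin 1 (by omega)) hok hV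
    hL1 hf1
  obtain ⟨_, l1'', l2'', hC, hC'⟩ := pos N f _ _ p q _ L1 _ _ (k + 1) a2 b2 hnd
    (hin (k + 1) (by omega)) hok hV hL2 hf2
  have g0' : f 1 = [1] := g0
  have g1' : f 4 = [4] := g1
  have h1n : (1 : ℕ) % 3 ≠ 0 := by decide
  have h4n : (4 : ℕ) % 3 ≠ 0 := by decide
  have r1 : l1' = l1 ++ 1 :: im N f (X N 3) := by
    have h : p ++ (im N f (pl (PP k P)) ++ (f 2 ++ im N f (X N 0 ++ 1 :: X N 3))) =
        (p ++ (im N f (pl (PP k P)) ++ (f 2 ++ im N f (X N 0)))) ++ 1 :: im N f (X N 3) := by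
      rw [im_append, im_cons N f 1 h1n, g0']
      simp only [List.append_assoc, List.cons_append, List.nil_append]
    rw [hA', hB'] at h
    simpa using h
  have r2 : l1'' = l1' ++ 4 :: im N f c' := by
    have h : p ++ (im N f (pl (PP k P)) ++ (f 2 ++ im N f (X N 0 ++ 1 :: (X N 3 ++ 4 :: c')))) =
        (p ++ (im N f (pl (PP k P)) ++ (f 2 ++ im N f (X N 0 ++ 1 :: X N 3)))) ++
          4 :: im N f c' := by
      have e : X N 0 ++ 1 :: (X N 3 ++ 4 :: c') = (X N 0 ++ 1 :: X N 3) ++ 4 :: c' := by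
        simp only [List.append_assoc, List.cons_append]
      rw [e, im_append, im_cons N f 4 h4n, g1']
      simp only [List.append_assoc, List.cons_append, List.nil_append]
    rw [hB', hC'] at h
    simpa using h
  -- `3 ∈ f 3`
  have hc1 : L1.count 1 = 1 := hok.one 0 (hin 0 (by omega))
  have hc4 : L1.count 4 = 1 := hok.one 1 (hin 1 (by omega))
  have hf3 : 3 ∈ f 3 := by
    obtain ⟨m1, m2, hm, hm1, hm2⟩ := hyin N S P Q g k L1 hH hS1
    obtain ⟨m11, m12, hm12, hm11⟩ := List.eq_append_cons_of_mem hm1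
    obtain ⟨m21, m22, hm22, hm21⟩ := List.eq_append_cons_of_mem hm2
    have hB2 : L1 = l1 ++ 1 :: (im N f (X N 3) ++ 4 :: l2') := by
      rw [hB, r1]
      simp only [List.append_assoc, List.cons_append]
    have hm3 : L1 = m11 ++ 1 :: ((m12 ++ 3 :: m21) ++ 4 :: m22) := by
      rw [hm, hm12, hm22]
      simp only [List.append_assoc, List.cons_append]
    have hn1 : 1 ∉ l1 := by
      rw [← List.count_eq_zero]
      rw [hB2, List.count_append, List.count_cons_self] at hc1
      omega
    obtain ⟨_, v2⟩ := uniq (hB2.symm.trans hm3) hn1 hm11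
    have k1 : 4 ∉ im N f (X N 3) := by
      rw [← List.count_eq_zero]
      rw [hB2, List.count_append, List.count_cons, List.count_append, List.count_cons_self] at hc4
      omega
    have k2 : 4 ∉ m12 ++ 3 :: m21 := by
      rw [← List.count_eq_zero]
      rw [hm3, List.count_append, List.count_cons, List.count_append, List.count_cons_self] at hc4
      omega
    obtain ⟨v3, _⟩ := uniq v2 k1 k2
    apply mem_im_X (N := N)
    rw [v3]
    simp
  -- a letter `3` between `4` and the light `k + 1`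
  have h3i : 3 ∈ im N f c' := mem_im h3c hf3
  obtain ⟨d1, d2, hd⟩ := List.append_of_mem h3i
  have hD : L1 = (l1' ++ 4 :: d1) ++ (3 * 1) :: (d2 ++ (3 * (k + 1) + 1) :: l2'') := by
    rw [hC, r2, hd]
    simp only [List.append_assoc, List.cons_append]
  have hck : L1.count (3 * (k + 1) + 1) = 1 := hok.one (k + 1) (hin (k + 1) (by omega))
  have hz2 : 3 * (k + 2) + 1 ∈ L1 :=
    List.count_pos_iff.1 (by rw [hok.one (k + 2) (hin (k + 2) (by omega))]; omega)
  -- the light `k + 2` is behind the light `k + 1`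
  have hnl : (3 * (k + 1) + 1) ∉ l1'' := by
    rw [← List.count_eq_zero]
    rw [hC, List.count_append, List.count_cons_self] at hck
    omega
  have hlast : 3 * (k + 2) + 1 ∈ l2'' := by
    rw [hC] at hz2
    rcases List.mem_append.1 hz2 with h | h
    · exfalso
      obtain ⟨n1, n2, hn⟩ := List.append_of_mem h
      have h1 : 3 * (k + 1) + 1 ∈ n1 := by
        refine hord N S P Q g k 1 (k + 1) (k + 2) n1 (n2 ++ (3 * (k + 1) + 1) :: l2'') hH
          (by omega) (by omega) (by omega) (fun h => Or.inr h) ?_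
        have e : n1 ++ (3 * (k + 2) + 1) :: (n2 ++ (3 * (k + 1) + 1) :: l2'') = L1 := by
          rw [hC, hn]
          simp only [List.append_assoc, List.cons_append]
        rw [e]
        exact hS1
      apply hnl
      rw [hn]
      exact List.mem_append_left _ h1
    · rcases List.mem_cons.1 h with h | h
      · omega
      · exact h
  refine hnob N S P Q g k 1 (l1' ++ 4 :: d1) (d2 ++ (3 * (k + 1) + 1) :: l2'') hH (by omega) ?_ ?_ ?_
  · rw [← hD]
    exact hS1
  · simp
  · have e : 3 * (k + 1 + 1) + 1 = 3 * (k + 2) + 1 := by omega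
    rw [e]
    exact List.mem_append_right _ (List.mem_cons_of_mem _ hlast)

end Pool.Agent.MWV.H62
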